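import Mathlib
import Pool.Agent.Results.MP_3bc45c_nt.RecordGapsAtPrescribedPlaces
import Pool.Agent.helper391_DG.Ana

set_option autoImplicit false

/-! Practical numbers in the middle of record gaps between primes. -/

namespace Pool.Agent.helper391_PN

open Filter Finset Pool.Agent.helper391_DG

/-- `2 ^ k * m` is practical if `m` is odd and at most `2 ^ (k + 1)`. -/
theorem practical_two_pow_mul {k m : ℕ} (hm : Odd m) (hmk : m ≤ 2 ^ (k + 1)) :
    ∀ j : ℕ, j ≤ 2 ^ k * m → ∃ D : Finset ℕ, D ⊆ (2 ^ k * m).divisors ∧ ∑ d ∈ D, d = j := by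
  intro j hj
  have hm0 : 0 < m := hm.pos
  set q := j / m with hq
  set r := j % m with hr
  have hqk : q ≤ 2 ^ k := by
    rw [hq, Nat.div_le_iff_le_mul_add_pred hm0]
    have : 2 ^ k * m = m * 2 ^ k := mul_comm _ _
    omega
  have hrm : r < m := Nat.mod_lt _ hm0
  have hjqr : m * q + r = j := Nat.div_add_mod j m
  set D₁ : Finset ℕ := q.bitIndices.toFinset.image (fun i => 2 ^ i * m) with hD₁
  set D₂ : Finset ℕ := r.bitIndices.toFinset.image (fun i => 2 ^ i) with hD₂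
  have hdisj : Disjoint D₁ D₂ := by
    rw [Finset.disjoint_left]
    intro a ha1 ha2
    rw [hD₁, Finset.mem_image] at ha1
    rw [hD₂, Finset.mem_image] at ha2
    obtain ⟨i, -, hi⟩ := ha1
    obtain ⟨l, hl, hl'⟩ := ha2
    have h1 : m ∣ 2 ^ l := ⟨2 ^ i, by rw [hl', ← hi]; ring⟩
    have h2 : m = 1 := Nat.Coprime.eq_one_of_dvd
      (Nat.Coprime.pow_right l (Nat.coprime_two_right.2 hm)) h1
    have h3 : r = 0 := by omega
    rw [h3] at hl
    simp at hl
  refine ⟨D₁ ∪ D₂, ?_, ?_⟩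
  · intro a ha
    rw [Nat.mem_divisors]
    refine ⟨?_, by positivity⟩
    rcases Finset.mem_union.1 ha with h | h
    · rw [hD₁, Finset.mem_image] at h
      obtain ⟨i, hi, rfl⟩ := h
      rw [List.mem_toFinset] at hi
      have h1 := (Nat.two_pow_le_of_mem_bitIndices hi).trans hqk
      have h2 : i ≤ k := (Nat.pow_le_pow_iff_right (by norm_num)).1 h1
      exact Nat.mul_dvd_mul (Nat.pow_dvd_pow 2 h2) dvd_rfl
    · rw [hD₂, Finset.mem_image] at h
      obtain ⟨i, hi, rfl⟩ := h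
      rw [List.mem_toFinset] at hi
      have h1 : 2 ^ i < 2 ^ (k + 1) :=
        ((Nat.two_pow_le_of_mem_bitIndices hi).trans_lt hrm).trans_le hmk
      have h2 : i < k + 1 := (Nat.pow_lt_pow_iff_right (by norm_num)).1 h1
      exact (Nat.pow_dvd_pow 2 (by omega : i ≤ k)).mul_right m
  · rw [Finset.sum_union hdisj, hD₁, hD₂, Finset.sum_image, Finset.sum_image, ← Finset.sum_mul,
      Finset.sum_toFinset_bitIndices_two_pow, Finset.sum_toFinset_bitIndices_two_pow, mul_comm]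
    · exact hjqr
    · intro x _ y _ h
      exact Nat.pow_right_injective (by norm_num) h
    · intro x _ y _ h
      exact Nat.pow_right_injective (le_refl 2) (Nat.eq_of_mul_eq_mul_right hm0 h)

theorem main (ε : ℝ) (hε : 0 < ε) :
    ∃ κ : ℝ, 0 < κ ∧ ∃ M₀ : ℕ, ∀ M : ℕ, M₀ ≤ M → ∃ n : ℕ, M < n ∧
      (n : ℝ) ≤ M + (M : ℝ) ^ (1 / 2 + ε) ∧
      (∀ j : ℕ, j ≤ n → ∃ D : Finset ℕ, D ⊆ n.divisors ∧ ∑ d ∈ D, d = j) ∧
      ∀ p : ℕ, p.Prime → κ * F (Real.log M) < |(p : ℝ) - n| := by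
  set ε' : ℝ := min ε (1 / 2) with hε'
  have hε'0 : 0 < ε' := lt_min hε (by norm_num)
  have hε'1 : ε' ≤ 1 / 2 := min_le_right _ _
  set δ : ℝ := ε' / (1 + 2 * ε') with hδ
  have hδ0 : 0 < δ := by positivity
  have hδ1 : δ < 1 := by
    rw [hδ, div_lt_one (by positivity)]; linarith
  obtain ⟨c, hc, x₀, hbb⟩ := Pool.Agent.Results.MP_3bc45c_nt.RecordGapsAtPrescribedPlaces.result
    δ 0 hδ0 hδ1 le_rfl
  obtain ⟨R, hR⟩ := F_scale (1 / 2) (by norm_num)
  have hcast : Tendsto (fun M : ℕ => (M : ℝ)) atTop atTop := tendsto_natCast_atTop_atTop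
  have hlogM : Tendsto (fun M : ℕ => Real.log (M : ℝ)) atTop atTop :=
    Real.tendsto_log_atTop.comp hcast
  have hxM : Tendsto (fun M : ℕ => (M : ℝ) ^ (1 / 2 + ε')) atTop atTop :=
    (tendsto_rpow_atTop (by positivity)).comp hcast
  have hxM2 : Tendsto (fun M : ℕ => (M : ℝ) ^ (ε' / 2)) atTop atTop :=
    (tendsto_rpow_atTop (by positivity)).comp hcast
  obtain ⟨M₀, hM₀⟩ := eventually_atTop.1 (((((hxM.eventually_ge_atTop x₀).and
    (hlogM.eventually_ge_atTop R)).and (hxM2.eventually_ge_atTop 4)).and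
      (hxM.eventually (thr_large 2))).and (eventually_ge_atTop 2))
  refine ⟨c / 32, by positivity, M₀, fun M hM => ?_⟩
  obtain ⟨⟨⟨⟨b1, b2⟩, b3⟩, b4⟩, b5⟩ := hM₀ M hM
  have hM2 : (2 : ℝ) ≤ M := by exact_mod_cast b5
  have hM0 : (0 : ℝ) < M := by linarith
  set x : ℝ := (M : ℝ) ^ (1 / 2 + ε') with hx
  set k := Nat.clog 4 M with hk
  have hk1 : M ≤ 4 ^ k := Nat.le_pow_clog (by norm_num) M
  have hk0 : 0 < k := Nat.clog_pos (by norm_num) b5
  have hk2 : 4 ^ (k - 1) < M := Nat.pow_pred_clog_lt_self (by norm_num) (by omega)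
  have hkR : (2 : ℝ) ^ (k + 1) ≤ 4 * (M : ℝ) ^ (1 / 2 : ℝ) := by
    have h1 : ((2 : ℝ) ^ (k - 1)) ^ 2 ≤ M := by
      rw [← pow_mul, mul_comm, pow_mul]
      norm_num
      exact_mod_cast hk2.le
    have h2 : (2 : ℝ) ^ (k - 1) ≤ (M : ℝ) ^ (1 / 2 : ℝ) := by
      rw [← Real.sqrt_eq_rpow]
      exact Real.le_sqrt_of_sq_le h1
    have h3 : (2 : ℝ) ^ (k + 1) = 4 * 2 ^ (k - 1) := by
      have h4 : k + 1 = 2 + (k - 1) := by omega
      rw [h4, pow_add]; norm_num
    rw [h3]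
    linarith
  have hxpow : x ^ (1 - δ) = (M : ℝ) ^ (1 / 2 : ℝ) * (M : ℝ) ^ (ε' / 2) := by
    rw [hx, ← Real.rpow_mul hM0.le, ← Real.rpow_add hM0]
    congr 1
    rw [hδ]
    field_simp
    ring
  have hsq0 : 0 < (M : ℝ) ^ (1 / 2 : ℝ) := by positivity
  obtain ⟨n, hn1, hn2, hn3, hn4⟩ := hbb x b1 (2 ^ (k + 1)) (Nat.one_le_two_pow)
    (by
      push_cast
      rw [hxpow]
      nlinarith)
    (by
      rw [zero_div]
      apply le_of_eq
      apply Finset.sum_eq_zero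
      intro p hp
      rw [Finset.mem_filter, Nat.primeFactors_pow _ (by omega), Nat.prime_two.primeFactors,
        Finset.mem_singleton] at hp
      obtain ⟨hp1, hp2⟩ := hp
      rw [hp1] at hp2
      push_cast at hp2
      linarith)
    (2 ^ k) M
  -- `x ≤ M`
  have hxM' : x ≤ M := by
    rw [hx]
    calc (M : ℝ) ^ (1 / 2 + ε') ≤ (M : ℝ) ^ (1 : ℝ) :=
          Real.rpow_le_rpow_of_exponent_le (by linarith) (by linarith)
      _ = M := Real.rpow_one _
  have hnM : n ≤ 2 * M := by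
    have : (n : ℝ) ≤ 2 * M := by linarith
    exact_mod_cast this
  -- the form of `n`
  have hdvd : 2 ^ k ∣ n := by
    have h1 : n ≡ 2 ^ k [MOD 2 ^ k] := hn1.of_dvd (Nat.pow_dvd_pow 2 (by omega))
    exact (Nat.modEq_zero_iff_dvd.1 (h1.trans (Nat.modEq_zero_iff_dvd.2 dvd_rfl)))
  obtain ⟨m, rfl⟩ := hdvd
  have hodd : Odd m := by
    have h1 : 2 ^ k * m ≡ 2 ^ k * 1 [MOD 2 ^ k * 2] := by
      rw [mul_one, ← pow_succ]; exact hn1
    have h2 : m ≡ 1 [MOD 2] := Nat.ModEq.mul_left_cancel' (by positivity) h1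
    exact Nat.odd_iff.2 h2
  have hmk : m ≤ 2 ^ (k + 1) := by
    have h1 : 2 ^ k * m ≤ 2 ^ k * 2 ^ (k + 1) := by
      have h2 : 2 ^ k * 2 ^ (k + 1) = 2 * 4 ^ k := by
        rw [show (4 : ℕ) = 2 ^ 2 by norm_num, ← pow_mul, ← pow_add, ← pow_succ']
        congr 1; ring
      omega
    exact Nat.le_of_mul_le_mul_left h1 (by positivity)
  refine ⟨2 ^ k * m, hn2, ?_, practical_two_pow_mul hodd hmk, ?_⟩
  · refine hn3.trans ?_
    have h1 : x ≤ (M : ℝ) ^ (1 / 2 + ε) := by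
      rw [hx]
      exact Real.rpow_le_rpow_of_exponent_le (by linarith)
        (by linarith [min_le_left ε (1 / 2)])
    linarith
  · intro p hp
    refine lt_of_le_of_lt ?_ (hn4 p hp)
    have hphi : ((Nat.totient (2 ^ (k + 1)) : ℕ) : ℝ) / ((2 ^ (k + 1) : ℕ) : ℝ) = 1 / 2 := by
      rw [Nat.totient_prime_pow_succ Nat.prime_two]
      push_cast
      rw [pow_succ]
      field_simp
    rw [hphi]
    have hlx : Real.log x = (1 / 2 + ε') * Real.log M := by
      rw [hx, Real.log_rpow hM0]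
    have hlM : 0 ≤ Real.log M := Real.log_nonneg (by linarith)
    obtain ⟨h1, h2⟩ := hR (Real.log M) b2 (Real.log x) (by rw [hlx]; nlinarith)
      (by rw [hlx]; nlinarith)
    have h3 : F (Real.log x) = Real.log x * (Real.log (Real.log x)) ^ 2 *
          Real.log (Real.log (Real.log (Real.log x))) / (Real.log (Real.log (Real.log x))) ^ 2 := rfl
    rw [← h3]
    calc c / 32 * F (Real.log M) = c * (1 / 2 * (1 / 2 / 8 * F (Real.log M))) := by ring
      _ ≤ c * (1 / 2 * F (Real.log x)) := by gcongr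

end Pool.Agent.helper391_PN
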